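import Mathlib
import Pool.Agent.H24.Cops

namespace Pool.Agent.Results.MP_64c30f_co.CopAbove

open SimpleGraph Pool.Agent.H24.Cops

/-- One pebbling move: remove two pebbles from `u` and put one on a neighbour `v` of `u`. -/
def PebMove {n : ℕ} (G : SimpleGraph (Fin n)) (D D' : Fin n → ℕ) : Prop :=
  ∃ u v, G.Adj u v ∧ 2 ≤ D u ∧
    D' = fun x => D x - (if x = u then 2 else 0) + (if x = v then 1 else 0)

/-- The optimal pebbling number. -/
noncomputable def optPebbling {n : ℕ} (G : SimpleGraph (Fin n)) : ℕ :=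
  sInf {m : ℕ | ∃ D : Fin n → ℕ, ∑ v, D v = m ∧
    ∀ r, ∃ D', Relation.ReflTransGen (PebMove G) D D' ∧ 1 ≤ D' r}

/-- Hoffman-Singleton graph: five pentagons and five pentagrams. -/
def adj (u v : Fin 50) : Bool :=
  if u.val < 25 then
    if v.val < 25 then u.val / 5 == v.val / 5 &&
      ((u.val + 1) % 5 == v.val % 5 || (v.val + 1) % 5 == u.val % 5)
    else (u.val / 5 * (v.val / 5) + u.val) % 5 == v.val % 5
  else
    if v.val < 25 then (v.val / 5 * (u.val / 5) + v.val) % 5 == u.val % 5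
    else u.val / 5 == v.val / 5 &&
      ((u.val + 2) % 5 == v.val % 5 || (v.val + 2) % 5 == u.val % 5)

def G0 : SimpleGraph (Fin 50) where
  Adj u v := adj u v = true
  symm := ⟨by decide +kernel⟩
  loopless := ⟨by decide +kernel⟩

instance : DecidableRel G0.Adj := fun u v => inferInstanceAs (Decidable (adj u v = true))

theorem rad : ∀ v : Fin 50, v = 0 ∨ G0.Adj 0 v ∨ ∃ w, G0.Adj 0 w ∧ G0.Adj w v := by
  decide +kernel

theorem conn : G0.Connected := by
  have h : ∀ v, G0.Reachable 0 v := by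
    intro v
    rcases rad v with rfl | h | ⟨w, h1, h2⟩
    · rfl
    · exact h.reachable
    · exact h1.reachable.trans h2.reachable
  exact ⟨fun u v => (h u).symm.trans (h v)⟩

theorem peb : optPebbling G0 ≤ 4 := by
  apply Nat.sInf_le
  refine ⟨fun x => if x = 0 then 4 else 0, by simp, fun r => ?_⟩
  rcases rad r with rfl | h | ⟨w, h1, h2⟩
  · exact ⟨_, .refl, by simp⟩
  · exact ⟨_, .single ⟨0, r, h, by simp, rfl⟩, by simp⟩
  · have hw : w ≠ 0 := h1.ne'
    refine ⟨_, .tail (.tail (.single ⟨0, w, h1, by simp, rfl⟩) ⟨0, w, h1, by simp, rfl⟩)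
      ⟨w, r, h2, by simp [hw], rfl⟩, by simp⟩

theorem avoid (S : Finset (Fin 50)) (c : Fin 4 → Fin 50) (m : ℕ) (hS : 4 * m < S.card)
    (h : ∀ i, (S.filter fun y => c i = y ∨ G0.Adj (c i) y).card ≤ m) :
    ∃ y ∈ S, ∀ i, c i ≠ y ∧ ¬ G0.Adj (c i) y := by
  by_contra hno
  push Not at hno
  have : S ⊆ Finset.univ.biUnion fun i => S.filter fun y => c i = y ∨ G0.Adj (c i) y := by
    intro y hy
    obtain ⟨i, hi⟩ := hno y hy
    simp only [Finset.mem_biUnion, Finset.mem_univ, true_and, Finset.mem_filter]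
    exact ⟨i, hy, by tauto⟩
  have h1 := (Finset.card_le_card this).trans
    (Finset.card_biUnion_le_card_mul _ _ m fun i _ => h i)
  simp at h1
  omega

theorem cops : ¬ CopsWin (fun a b => a = b ∨ G0.Adj a b) 4 := by
  have k0 : ∀ x : Fin 50, (Finset.univ.filter fun y => x = y ∨ G0.Adj x y).card ≤ 8 := by
    decide +kernel
  have k1 : ∀ r : Fin 50, 4 * 1 < (Finset.univ.filter fun y => G0.Adj r y).card := by
    decide +kernel
  have k2 : ∀ r x : Fin 50, x ≠ r → ((Finset.univ.filter fun y => G0.Adj r y).filter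
      fun y => x = y ∨ G0.Adj x y).card ≤ 1 := by
    decide +kernel
  refine not_win_of_safe (fun a => ⟨a, Or.inl rfl⟩)
    (fun c r => ∀ i, c i ≠ r ∧ ¬ G0.Adj (c i) r) ?_ ?_ ?_
  · intro c
    obtain ⟨y, -, hy⟩ := avoid Finset.univ c 8 (by simp) fun i => k0 _
    exact ⟨y, hy⟩
  · exact fun c r h i => (h i).1
  · intro c r c' h hm
    have hne : ∀ i, c' i ≠ r := by
      intro i e
      rcases hm i with h1 | h1
      · exact (h i).1 (h1.trans e)
      · exact (h i).2 (e ▸ h1)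
    obtain ⟨y, hy, hy2⟩ := avoid _ c' 1 (k1 r) fun i => k2 r _ (hne i)
    exact ⟨hne, y, Or.inr (by simpa using hy), hy2⟩

theorem result : ∃ (n : ℕ) (G : SimpleGraph (Fin n)), G.Connected ∧
    optPebbling G < copNumber G :=
  ⟨50, G0, conn, lt_of_le_of_lt peb (lt_sInf (fun a => ⟨a, Or.inl rfl⟩) 0 cops)⟩

end Pool.Agent.Results.MP_64c30f_co.CopAbove
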